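import Pool.Agent.Q260.GM.Xj

/-!
# Primes in short intervals, the Riemann hypothesis and the simplicity of almost all zeros

No hypothesis is assumed.  Put `V(T, b) = (T / log² T) ∫_T^{T^b} (ψ(x + x/T) - ψ(x) - x/T)² dx / x²`.
The expected value is `b - 1`.

(1) The Riemann hypothesis holds if and only if `V(T, b) ≤ C b` for some `C`, all `b ≥ 1` and
`T ≥ T₀(b)`.
(2) Let `η ≥ 0`.  If `V(T, b) ≤ (1 + η + o(1)) b` (`T → ∞`, then `b → ∞`), then the Riemann
hypothesis holds, all but at most the proportion `9η/4` of the zeros are simple, and the number of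
pairs of zeros (the diagonal included) whose distance is at most `β` times the mean spacing is at
most `(1 + 9η/4 + o(1)) (T / 2π) log T` (`T → ∞`, then `β → 0`).
(3) For `η = 0` this is an equivalence, and the upper bound in it is equivalent to the asymptotic
formula `V(T, b) ~ b`.

The zeros of Hardy's function `Z` are the ordinates of the zeros on the critical line, with the same
multiplicities.

Idea of the proof.  The upper bound and a telescoping argument give the Riemann hypothesis.  Then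
`∫ (…)² x^{-2-2a/log T} dx` is a mean of `|ζ'/ζ (1/2 + a / log T + it)|²`, hence of Cauchy kernels of
the differences of the ordinates.  The contribution of the diagonal of each range of ordinates is
known, and it is a lower bound; so an upper bound for the mean controls everything else.
-/

open Filter Topology

namespace Pool.Agent.Results.MP_6bc78b_nt.EssentialSimplicityFromPrimes

/-- the nontrivial zeros of `ζ` with ordinate in `[0, T]` -/
def zeros (T : ℝ) : Set ℂ :=
  {s : ℂ | riemannZeta s = 0 ∧ 0 < s.re ∧ s.re < 1 ∧ 0 ≤ s.im ∧ s.im ≤ T}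

/-- the multiplicity of a zero -/
noncomputable def mult (s : ℂ) : ℕ := analyticOrderNatAt riemannZeta s

/-- the number of ordered pairs of zeros, counted with multiplicity, the diagonal included, whose
ordinates differ by at most `β` times the mean spacing -/
noncomputable def P (T β : ℝ) : ℕ :=
  ∑ᶠ p ∈ {p : ℂ × ℂ | p.1 ∈ zeros T ∧ p.2 ∈ zeros T ∧
    |p.1.im - p.2.im| * Real.log T / (2 * Real.pi) ≤ β}, mult p.1 * mult p.2

/-- the expected number of zeros -/
noncomputable def X (T : ℝ) : ℝ := T * Real.log T / (2 * Real.pi)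

/-- the number of nontrivial zeros with ordinate in `(0, T]` and property `A`, counted with
multiplicity -/
noncomputable def Num (A : ℂ → Prop) (T : ℝ) : ℕ :=
  ∑ᶠ s ∈ {s : ℂ | s ∈ {s : ℂ | riemannZeta s = 0 ∧ 0 < s.re ∧ s.re < 1} ∧ 0 < s.im ∧ s.im ≤ T ∧
    A s}, mult s

/-- the normalised variance of the primes in the intervals `(x, x + x / T]`, `T ≤ x ≤ T ^ b` -/
noncomputable def V (T b : ℝ) : ℝ := T / Real.log T ^ 2 * ∫ x in (T ^ (1 : ℝ))..(T ^ b),
  (Chebyshev.psi (x + x / T) - Chebyshev.psi x - x / T) ^ 2 / x ^ 2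

/-- `V(T, b) ≤ (1 + η + o(1)) b`, `T → ∞`, then `b → ∞` -/
def Upper (η : ℝ) : Prop := ∀ ε : ℝ, 0 < ε → ∃ b₀ : ℝ, ∀ b : ℝ, b₀ ≤ b → ∀ᶠ T : ℝ in atTop,
  V T b ≤ (1 + η + ε) * b

/-- `V(T, b) ~ b`, `T → ∞`, then `b → ∞` -/
def Asymp : Prop := ∀ ε : ℝ, 0 < ε → ∃ b₀ : ℝ, ∀ b : ℝ, b₀ ≤ b → ∀ᶠ T : ℝ in atTop,
  |V T b - b| ≤ ε * b

/-- essential simplicity: the number of pairs of zeros at distance at most `β` times the mean
spacing, the diagonal included, is at most `(1 + o(1)) X(T)`, `T → ∞`, then `β → 0` -/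
def Ess : Prop := ∀ ε : ℝ, 0 < ε → ∃ β : ℝ, 0 < β ∧ ∀ᶠ T : ℝ in atTop, (P T β : ℝ) ≤ (1 + ε) * X T

/-- Without hypothesis: (1) the Riemann hypothesis as boundedness of the mean; (2) stability: the
upper bound with constant `1 + η` gives the Riemann hypothesis, few close pairs, and at most the
proportion `9η/4` of zeros which are multiple; (3), (4) the two equivalences for `η = 0`. -/
theorem result :
    (RiemannHypothesis ↔ ∃ C : ℝ, ∀ b : ℝ, 1 ≤ b → ∀ᶠ T : ℝ in atTop, V T b ≤ C * b) ∧
    (∀ η : ℝ, 0 ≤ η → Upper η → RiemannHypothesis ∧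
      (∀ ε : ℝ, 0 < ε → ∃ β : ℝ, 0 < β ∧ ∀ᶠ T : ℝ in atTop, (P T β : ℝ) ≤ (1 + 9 / 4 * η + ε) * X T) ∧
      ∀ ε : ℝ, 0 < ε → ∀ᶠ T : ℝ in atTop,
        (Num (fun s => s.re ≠ 1 / 2 ∨ deriv riemannZeta s = 0) T : ℝ) ≤
          (9 / 4 * η + ε) * Num (fun _ => True) T) ∧
    (Upper 0 ↔ RiemannHypothesis ∧ Ess) ∧ (Asymp ↔ RiemannHypothesis ∧ Ess) :=
  Pool.Agent.Q260.GM.av_main

end Pool.Agent.Results.MP_6bc78b_nt.EssentialSimplicityFromPrimes
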