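import Pool.Agent.Q286.UZ.Rec

/-!
# The values of zeta at shifts by the ordinates of its zeros, unconditionally

Let `K` be a compact subset of the strip `1/2 < Re s < 1` and `f` an arbitrary function on `K`;
`S ε K f` is the set of the real `t` with `sup_{s ∈ K} |ζ(s + it) - f(s)| < ε`.

1. The ordinates `γ` of the zeros of zeta, counted with multiplicity, fall into `S ε K f` with the
   same limiting frequency `D(ε)` as all real numbers `t`, and simple zeros on the critical line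
   carry at least the proportion `2 - c ≥ 0.6725` of it.
2. Universality along the simple zeros on the critical line.
3. Local form of Bagchi's criterion: zeta has no zero in the interior of the hull of `K` if and only
   if for every `ε` it `ε`-returns to itself on `K` at a positive proportion of the simple zeros on
   the critical line; a zero `z₀` there makes returns `T^(1-δ)`-rare, `δ < 4/3 (Re z₀ - 1/2)`.
4. Equivalents of the Riemann hypothesis.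

No hypothesis is assumed.
-/

set_option autoImplicit false

open Complex Filter Set MeasureTheory Topology

namespace Pool.Agent.Results.MP_6bc78b_nt.ReturnsAtZeros

/-- the hull of `K`: the union of `K` and of the bounded components of its complement -/
def hull (K : Set ℂ) : Set ℂ :=
  K ∪ {z | z ∉ K ∧ Bornology.IsBounded (connectedComponentIn Kᶜ z)}

/-- `f` extends from `K` to a function `g` which is continuous on the hull of `K` and holomorphic in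
the interior of the hull, and on each component of the interior either free of zeros or
identically zero -/
def IsTarget (K : Set ℂ) (f : ℂ → ℂ) : Prop :=
  ∃ g : ℂ → ℂ, (∀ z ∈ K, g z = f z) ∧ ContinuousOn g (hull K) ∧
    DifferentiableOn ℂ g (interior (hull K)) ∧
    ∀ z ∈ interior (hull K),
      (∀ w ∈ connectedComponentIn (interior (hull K)) z, g w ≠ 0) ∨
      (∀ w ∈ connectedComponentIn (interior (hull K)) z, g w = 0)

/-- `S ε K f`: the real `t` with `sup_{z ∈ K} |ζ(z + it) - f(z)| < ε` -/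
def S (ε : ℝ) (K : Set ℂ) (f : ℂ → ℂ) : Set ℝ :=
  {t : ℝ | ∃ δ < ε, ∀ z ∈ K, ‖riemannZeta (z + t * I) - f z‖ ≤ δ}

/-- the nontrivial zeros of zeta with ordinate in `(T₁, T₂]` -/
def zeros (T₁ T₂ : ℝ) : Set ℂ :=
  {s : ℂ | riemannZeta s = 0 ∧ 0 < s.re ∧ s.re < 1 ∧ T₁ < s.im ∧ s.im ≤ T₂}

/-- the number of nontrivial zeros with ordinate in `(T₁, T₂]`, counted with multiplicity -/
noncomputable def N (T₁ T₂ : ℝ) : ℕ := ∑ᶠ s ∈ zeros T₁ T₂, analyticOrderNatAt riemannZeta s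

/-- the number of nontrivial zeros with ordinate in `(T₁, T₂]` and in `A`, counted with
multiplicity -/
noncomputable def NP (T₁ T₂ : ℝ) (A : Set ℝ) : ℕ :=
  ∑ᶠ s ∈ {s : ℂ | s ∈ zeros T₁ T₂ ∧ s.im ∈ A}, analyticOrderNatAt riemannZeta s

/-- the numbers `t ∈ (T₁, T₂]` for which `1/2 + it` is a simple zero of zeta -/
def simpleCritical (T₁ T₂ : ℝ) : Set ℝ :=
  {t : ℝ | T₁ < t ∧ t ≤ T₂ ∧ riemannZeta (1 / 2 + I * t) = 0 ∧
    deriv riemannZeta (1 / 2 + I * t) ≠ 0}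

/-- the inverse of the Montgomery-Taylor constant -/
noncomputable def c : ℝ := 1 / 2 + Real.cot (1 / Real.sqrt 2) / Real.sqrt 2

lemma zeros_eq (T₁ T₂ : ℝ) : zeros T₁ T₂ = H370.zset riemannZeta T₁ T₂ := by
  ext s
  simp only [zeros, H370.zset, Set.mem_ofPred_eq]
  tauto

lemma N_eq (T₁ T₂ : ℝ) : N T₁ T₂ = H370.NN riemannZeta T₁ T₂ := by
  unfold N H370.NN H370.mult
  rw [zeros_eq]

lemma NP_eq {T₁ T₂ : ℝ} (h : 1 ≤ T₁) (A : Set ℝ) :
    (NP T₁ T₂ A : ℝ) = TH803UC.NU riemannZeta T₁ T₂ (fun t => t ∈ A) := by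
  rw [TH803UC.NU_eq h]
  unfold NP
  rw [zeros_eq]

lemma c_eq : c = H295SI.cc 1 := rfl

lemma S_eq (ε : ℝ) (K : Set ℂ) (f : ℂ → ℂ) : S ε K f = Pool.Agent.Y834.UT.SS ε K f := rfl

lemma hull_eq (K : Set ℂ) : hull K = Pool.Agent.Y834.UT.hull K := rfl

lemma isTarget_iff (K : Set ℂ) (f : ℂ → ℂ) : IsTarget K f ↔ Pool.Agent.Y834.UT.Tgt K f := Iff.rfl

lemma sc_eq (T₁ T₂ : ℝ) : simpleCritical T₁ T₂ = Pool.Agent.Q286.UZ.SC T₁ T₂ := rfl

open Pool.Agent.Q286.UZ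

theorem result :
    -- (1) the limit laws, for arbitrary functions on compact subsets of the strip
    (∀ (K : Set ℂ) (f : ℂ → ℂ), IsCompact K → (∀ z ∈ K, 1 / 2 < z.re ∧ z.re < 1) →
      ∃ (D : ℝ → ℝ) (E : Set ℝ), Monotone D ∧ (∀ ε, 0 ≤ D ε ∧ D ε ≤ 1) ∧ E.Countable ∧
        ((∀ ε : ℝ, 0 < ε → 0 < D ε) ↔ IsTarget K f) ∧
        ∀ ε : ℝ, 0 < ε → ε ∉ E →
          Tendsto (fun T : ℝ => (volume (S ε K f ∩ Icc 0 T)).toReal / T) atTop (𝓝 (D ε)) ∧
          Tendsto (fun T : ℝ => (NP T (2 * T) (S ε K f) : ℝ) / N T (2 * T)) atTop (𝓝 (D ε)) ∧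
          ∀ η : ℝ, 0 < η → ∃ T₀ : ℝ, ∀ T ≥ T₀, ((2 - c) * D ε - η) * N T (2 * T) ≤
            ((simpleCritical T (2 * T) ∩ S ε K f).ncard : ℝ)) ∧
    -- the proportion of simple critical zeros in the classes, if `f` is a target
    (∀ (K : Set ℂ) (f : ℂ → ℂ), IsCompact K → (∀ z ∈ K, 1 / 2 < z.re ∧ z.re < 1) →
      IsTarget K f → ∃ E : Set ℝ, E.Countable ∧ ∀ ε : ℝ, 0 < ε → ε ∉ E → ∀ η : ℝ, 0 < η →
        ∃ T₀ : ℝ, ∀ T ≥ T₀, (2 - c - η) * NP T (2 * T) (S ε K f) ≤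
          ((simpleCritical T (2 * T) ∩ S ε K f).ncard : ℝ)) ∧
    -- (2) universality along the simple zeros on the critical line
    (∀ (K : Set ℂ) (f : ℂ → ℂ), IsCompact K → (∀ z ∈ K, 1 / 2 < z.re ∧ z.re < 1) →
      [IsTarget K f,
        ∀ ε : ℝ, 0 < ε → ∃ κ : ℝ, 0 < κ ∧ ∃ T₀ : ℝ, ∀ T ≥ T₀,
          κ * N T (2 * T) ≤ ((simpleCritical T (2 * T) ∩ S ε K f).ncard : ℝ),
        ∀ ε : ℝ, 0 < ε → ∃ κ : ℝ, 0 < κ ∧ ∀ T₀ : ℝ, ∃ T ≥ T₀,
          κ * N T (2 * T) ≤ (NP T (2 * T) (S ε K f) : ℝ)].TFAE) ∧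
    -- (3) the local criterion
    (∀ K : Set ℂ, IsCompact K → (∀ z ∈ K, 1 / 2 < z.re ∧ z.re < 1) →
      ((∀ z ∈ interior (hull K), riemannZeta z ≠ 0) ↔
        ∀ ε : ℝ, 0 < ε → ∃ κ : ℝ, 0 < κ ∧ ∃ T₀ : ℝ, ∀ T ≥ T₀,
          κ * N T (2 * T) ≤ ((simpleCritical T (2 * T) ∩ S ε K riemannZeta).ncard : ℝ)) ∧
      (∀ z₀ ∈ interior (hull K), riemannZeta z₀ = 0 → ∀ δ : ℝ, δ < 4 / 3 * (z₀.re - 1 / 2) →
        ∃ ε : ℝ, 0 < ε ∧ ∃ T₀ : ℝ, ∀ T ≥ T₀,
          (NP T (2 * T) (S ε K riemannZeta) : ℝ) ≤ T ^ (1 - δ))) ∧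
    -- (4) the Riemann hypothesis
    [RiemannHypothesis,
      ∀ K : Set ℂ, IsCompact K → (∀ z ∈ K, 1 / 2 < z.re ∧ z.re < 1) → ∀ ε : ℝ, 0 < ε →
        ∃ κ : ℝ, 0 < κ ∧ ∃ T₀ : ℝ, ∀ T ≥ T₀,
          κ * N T (2 * T) ≤ ((simpleCritical T (2 * T) ∩ S ε K riemannZeta).ncard : ℝ),
      ∀ (z₀ : ℂ) (r : ℝ), 0 < r → (∀ z ∈ Metric.closedBall z₀ r, 1 / 2 < z.re ∧ z.re < 1) →
        ∀ ε : ℝ, 0 < ε → ∀ δ : ℝ, 0 < δ → ∀ T₀ : ℝ, ∃ T ≥ T₀,
          T ^ (1 - δ) < (NP T (2 * T) (S ε (Metric.closedBall z₀ r) riemannZeta) : ℝ)].TFAE ∧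
    -- the constant
    0.6725 ≤ 2 - c := by
  have hlaw : ∀ (K : Set ℂ) (f : ℂ → ℂ), IsCompact K → (∀ z ∈ K, 1 / 2 < z.re ∧ z.re < 1) →
      ∀ ε : ℝ, 0 < ε → ε ∉ {x | ¬ ContinuousAt (DD K f) x} →
          Tendsto (fun T : ℝ => (volume (S ε K f ∩ Icc 0 T)).toReal / T) atTop (𝓝 (DD K f ε)) ∧
          Tendsto (fun T : ℝ => (NP T (2 * T) (S ε K f) : ℝ) / N T (2 * T)) atTop
            (𝓝 (DD K f ε)) ∧
          ∀ η : ℝ, 0 < η → ∃ T₀ : ℝ, ∀ T ≥ T₀, ((2 - c) * DD K f ε - η) * N T (2 * T) ≤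
            ((simpleCritical T (2 * T) ∩ S ε K f).ncard : ℝ) := by
    intro K f hK hKs ε hε hcont
    rw [Set.mem_ofPred_eq, not_not] at hcont
    obtain ⟨h1, h2, h3⟩ := limits hK hKs f hε hcont
    refine ⟨h1, ?_, fun η hη => ?_⟩
    · refine h2.congr' ?_
      filter_upwards [eventually_ge_atTop (1 : ℝ)] with T hT
      rw [NP_eq hT, N_eq, S_eq]
    · obtain ⟨T₀, -, hT⟩ := h3 η hη
      refine ⟨T₀, fun T hTT => ?_⟩
      rw [N_eq]
      exact hT T hTT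
  have hpos : ∀ (K : Set ℂ) (f : ℂ → ℂ), IsCompact K → (∀ z ∈ K, 1 / 2 < z.re ∧ z.re < 1) →
      ((∀ ε : ℝ, 0 < ε → 0 < DD K f ε) ↔ IsTarget K f) := by
    intro K f hK hKs
    constructor
    · intro h
      refine (Pool.Agent.Y834.UT.main hK hKs f).1.1 fun ε hε => ?_
      have h1 := h ε hε
      by_contra hcon
      have h0 : Pool.Agent.Y834.UT.ld (Pool.Agent.Y834.UT.SS ε K f) = 0 :=
        le_antisymm (not_lt.1 hcon) zero_le
      unfold DD at h1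
      rw [h0] at h1
      simp at h1
    · intro h ε hε
      exact target_pos hK hKs h hε
  have huniv : ∀ (K : Set ℂ) (f : ℂ → ℂ), IsCompact K → (∀ z ∈ K, 1 / 2 < z.re ∧ z.re < 1) →
      [IsTarget K f,
        ∀ ε : ℝ, 0 < ε → ∃ κ : ℝ, 0 < κ ∧ ∃ T₀ : ℝ, ∀ T ≥ T₀,
          κ * N T (2 * T) ≤ ((simpleCritical T (2 * T) ∩ S ε K f).ncard : ℝ),
        ∀ ε : ℝ, 0 < ε → ∃ κ : ℝ, 0 < κ ∧ ∀ T₀ : ℝ, ∃ T ≥ T₀,
          κ * N T (2 * T) ≤ (NP T (2 * T) (S ε K f) : ℝ)].TFAE := by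
    intro K f hK hKs
    tfae_have 1 → 2 := by
      intro h ε hε
      obtain ⟨κ, hκ, T₀, -, hT⟩ := target_simple hK hKs h hε
      refine ⟨κ, hκ, T₀, fun T hTT => ?_⟩
      rw [N_eq]
      exact hT T hTT
    tfae_have 2 → 3 := by
      intro h ε hε
      obtain ⟨κ, hκ, T₀, hT⟩ := h ε hε
      refine ⟨κ, hκ, fun T1 => ⟨max T1 (max T₀ 1), le_max_left _ _, ?_⟩⟩
      refine (hT _ ((le_max_left _ _).trans (le_max_right _ _))).trans ?_
      rw [NP_eq ((le_max_right T₀ 1).trans (le_max_right _ _))]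
      exact SC_le_NU ((le_max_right T₀ 1).trans (le_max_right _ _)) _
    tfae_have 3 → 1 := by
      intro h
      refine target_conv hK hKs fun ε hε => ?_
      obtain ⟨κ, hκ, hT⟩ := h ε hε
      refine ⟨κ, hκ, fun T0 => ?_⟩
      obtain ⟨T, hTT, h1⟩ := hT (max T0 1)
      refine ⟨T, (le_max_left _ _).trans hTT, ?_⟩
      rw [NP_eq ((le_max_right _ _).trans hTT), N_eq] at h1
      exact h1
    tfae_finish
  have hrare : ∀ K : Set ℂ, IsCompact K → (∀ z ∈ K, 1 / 2 < z.re ∧ z.re < 1) →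
      ∀ z₀ ∈ interior (hull K), riemannZeta z₀ = 0 → ∀ δ : ℝ, δ < 4 / 3 * (z₀.re - 1 / 2) →
        ∃ ε : ℝ, 0 < ε ∧ ∃ T₀ : ℝ, ∀ T ≥ T₀,
          (NP T (2 * T) (S ε K riemannZeta) : ℝ) ≤ T ^ (1 - δ) := by
    intro K hK hKs z₀ hz₀ h0 δ hδ
    obtain ⟨ε, hε, T₀, hT₀, hT⟩ := rare_rec hK hKs hz₀ h0 hδ
    refine ⟨ε, hε, T₀, fun T hTT => ?_⟩
    rw [NP_eq (by linarith)]
    exact hT T hTT
  refine ⟨fun K f hK hKs => ⟨DD K f, {x | ¬ ContinuousAt (DD K f) x}, DD_mono K f,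
      fun ε => ⟨DD_nonneg K f ε, DD_le_one K f ε⟩, (DD_mono K f).countable_not_continuousAt,
      hpos K f hK hKs, hlaw K f hK hKs⟩, ?_, huniv, ?_, ?_, ?_⟩
  · intro K f hK hKs ht
    refine ⟨{x | ¬ ContinuousAt (DD K f) x}, (DD_mono K f).countable_not_continuousAt, ?_⟩
    intro ε hε hcont η hη
    obtain ⟨-, h2, h3⟩ := hlaw K f hK hKs ε hε hcont
    have hD := (hpos K f hK hKs).2 ht ε hε
    have hD1 := DD_le_one K f ε
    have hcc := TH803UC.cc_lt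
    have hcg := TH803UC.cc_gt
    rw [← c_eq] at hcc hcg
    obtain ⟨T1, hT1⟩ := h3 (η * DD K f ε / 4) (by positivity)
    obtain ⟨TN, hTN, hN⟩ := TH803UC.NN_low H370.good_zeta
    obtain ⟨T2, hT2⟩ := Metric.tendsto_atTop.1 h2 (η * DD K f ε / 4) (by positivity)
    refine ⟨max TN (max T1 T2), fun T hT => ?_⟩
    have q0 : TN ≤ T := (le_max_left _ _).trans hT
    have q1 : T1 ≤ T := ((le_max_left _ _).trans (le_max_right _ _)).trans hT
    have q2 : T2 ≤ T := ((le_max_right _ _).trans (le_max_right _ _)).trans hT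
    have k1 := hT1 T q1
    have k2 := hT2 T q2
    have hNp : (0 : ℝ) < N T (2 * T) := by
      rw [N_eq]
      exact NN_pos (hTN.trans q0) (hN T q0)
    rw [Real.dist_eq, abs_lt] at k2
    have k3 : (NP T (2 * T) (S ε K f) : ℝ) < (DD K f ε + η * DD K f ε / 4) * N T (2 * T) := by
      have := k2.2
      rw [sub_lt_iff_lt_add, div_lt_iff₀ hNp] at this
      linarith
    have hNP0 : (0 : ℝ) ≤ NP T (2 * T) (S ε K f) := Nat.cast_nonneg _
    rcases le_or_gt (2 - c - η) 0 with hneg | hposc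
    · exact (mul_nonpos_of_nonpos_of_nonneg hneg hNP0).trans (Nat.cast_nonneg _)
    · refine le_trans ?_ k1
      refine (mul_le_mul_of_nonneg_left k3.le hposc.le).trans ?_
      rw [← mul_assoc]
      apply mul_le_mul_of_nonneg_right _ hNp.le
      have k4 : 0 < η * DD K f ε := by positivity
      have k5 : (2 - c) * (η * DD K f ε) ≤ 1 * (η * DD K f ε) :=
        mul_le_mul_of_nonneg_right (by linarith) k4.le
      nlinarith
  · intro K hK hKs
    refine ⟨⟨fun h => ?_, fun h => ?_⟩, hrare K hK hKs⟩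
    · exact ((huniv K riemannZeta hK hKs).out 0 1).1 (tgt_zeta hK hKs h)
    · intro z₀ hz₀ h0
      obtain ⟨ε, hε, T1, hT1⟩ := hrare K hK hKs z₀ hz₀ h0 0 (by
        obtain ⟨a, b, B, h1, h2, h3, h4, hR⟩ := Pool.Agent.Y834.UT.exists_hull_rect hK hKs
        have := h1.trans_le (hR (interior_subset hz₀)).1
        linarith)
      obtain ⟨κ, hκ, T2, hT2⟩ := h ε hε
      obtain ⟨TN, hTN, hN⟩ := TH803UC.NN_low H370.good_zeta
      have hev : ∀ᶠ T : ℝ in atTop, 7 / κ < Real.log T :=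
        Real.tendsto_log_atTop.eventually_gt_atTop _
      obtain ⟨T, ⟨⟨k1, k2⟩, k3⟩, k4⟩ := (((hev.and (eventually_ge_atTop T1)).and
        (eventually_ge_atTop T2)).and (eventually_ge_atTop TN)).exists
      have hT10 : 10 ≤ T := hTN.trans k4
      have e1 := hT1 T k2
      have e2 := hT2 T k3
      have e3 := hN T k4
      have e4 : ((simpleCritical T (2 * T) ∩ S ε K riemannZeta).ncard : ℝ) ≤
          (NP T (2 * T) (S ε K riemannZeta) : ℝ) := by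
        rw [NP_eq (by linarith)]
        exact SC_le_NU (by linarith) _
      rw [sub_zero, Real.rpow_one] at e1
      rw [N_eq] at e2
      have e5 : κ * (T * Real.log T) ≤ 7 * T := by
        have := mul_le_mul_of_nonneg_left e3 hκ.le
        linarith
      rw [div_lt_iff₀ hκ] at k1
      nlinarith
  · have h := rh_tfae
    have e12 := h.out 0 1
    have e13 := h.out 0 2
    have f2 : (∀ K : Set ℂ, IsCompact K → (∀ z ∈ K, 1 / 2 < z.re ∧ z.re < 1) → ∀ ε : ℝ, 0 < ε →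
        ∃ κ : ℝ, 0 < κ ∧ ∃ T₀ : ℝ, ∀ T ≥ T₀,
          κ * N T (2 * T) ≤ ((simpleCritical T (2 * T) ∩ S ε K riemannZeta).ncard : ℝ)) ↔
        RiemannHypothesis := by
      rw [e12]
      simp only [N_eq]
      rfl
    have f3 : (∀ (z₀ : ℂ) (r : ℝ), 0 < r → (∀ z ∈ Metric.closedBall z₀ r, 1 / 2 < z.re ∧ z.re < 1) →
        ∀ ε : ℝ, 0 < ε → ∀ δ : ℝ, 0 < δ → ∀ T₀ : ℝ, ∃ T ≥ T₀,
          T ^ (1 - δ) < (NP T (2 * T) (S ε (Metric.closedBall z₀ r) riemannZeta) : ℝ)) ↔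
        RiemannHypothesis := by
      rw [e13]
      constructor
      · intro h z₀ r hr hs ε hε δ hδ T₀
        obtain ⟨T, hT, h1⟩ := h z₀ r hr hs ε hε δ hδ (max T₀ 1)
        refine ⟨T, (le_max_left _ _).trans hT, ?_⟩
        rw [NP_eq ((le_max_right _ _).trans hT)] at h1
        exact h1
      · intro h z₀ r hr hs ε hε δ hδ T₀
        obtain ⟨T, hT, h1⟩ := h z₀ r hr hs ε hε δ hδ (max T₀ 1)
        refine ⟨T, (le_max_left _ _).trans hT, ?_⟩
        rw [NP_eq ((le_max_right _ _).trans hT)]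
        exact h1
    tfae_have 1 ↔ 2 := f2.symm
    tfae_have 1 ↔ 3 := f3.symm
    tfae_finish
  · have := TH803UC.cc_lt
    rw [← c_eq] at this
    linarith

end Pool.Agent.Results.MP_6bc78b_nt.ReturnsAtZeros
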